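import Pool.Agent.Lib_helper75.Spectral.NotSpectral

/-!
The Birkhoff polytope `B_5`: vertex-transitivity, edges, symmetries, irreducibility.
-/

open scoped RealInnerProductSpace
open Equiv

namespace Pool.Agent.Lib_helper75.Spectral

set_option maxRecDepth 100000 in
theorem fx_le : ∀ π : G, π ≠ 1 → fx π ≤ 3 := by decide +kernel

theorem fx_one : fx (1 : G) = 5 := by decide +kernel

theorem fx_swap : fx (swap 0 1 : G) = 3 := by decide +kernel

set_option maxRecDepth 100000 in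
theorem sum_ent_all : ∀ i j : Fin 5, ∑ σ : G, ent σ i j = 24 := by decide +kernel

/-- the abstract data of a Birkhoff polytope -/
structure IsB5 {F : Type*} [NormedAddCommGroup F] [InnerProductSpace ℝ F] (p : G → F) : Prop where
  gram : ∀ σ τ, ⟪p σ, p τ⟫ = (fx (σ⁻¹ * τ) : ℝ) - 1
  span : Submodule.span ℝ (Set.range p) = ⊤
  rel : ∀ a : G → ℝ, (∀ i j, ∑ σ, a σ * (ent σ i j : ℝ) = (∑ σ, a σ) / 5) → ∑ σ, a σ • p σ = 0

section

variable {F : Type*} [NormedAddCommGroup F] [InnerProductSpace ℝ F] {p : G → F}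

lemma IsB5.inj (hp : IsB5 p) : Function.Injective p := by
  intro σ τ h
  by_contra hne
  have h1 : ⟪p σ, p τ⟫ = ⟪p σ, p σ⟫ := by rw [h]
  rw [hp.gram, hp.gram, inv_mul_cancel, fx_one] at h1
  have h2 : σ⁻¹ * τ ≠ 1 := by
    intro h3; exact hne (inv_mul_eq_one.mp h3)
  have h3 := fx_le _ h2
  have h4 : (fx (σ⁻¹ * τ) : ℝ) ≤ 3 := by exact_mod_cast h3
  push_cast at h1
  linarith

/-- the polytope -/
def BP (p : G → F) : Set F := convexHull ℝ (Set.range p)

lemma BP_eq (p : G → F) : BP p = convexHull ℝ (((Set.toFinite (Set.range p)).toFinset : Finset F) : Set F) := by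
  rw [Set.Finite.coe_toFinset]; rfl

lemma IsB5.vertex (hp : IsB5 p) (σ : G) : IsExposed ℝ (BP p) {p σ} := by
  apply exposed_single p (innerSL ℝ (p σ)) σ
  intro τ hτ
  rw [innerSL_apply_apply, innerSL_apply_apply, hp.gram, hp.gram, inv_mul_cancel, fx_one]
  have h2 : σ⁻¹ * τ ≠ 1 := by
    intro h3; exact hτ (inv_mul_eq_one.mp h3).symm
  have h3 := fx_le _ h2
  have h4 : (fx (σ⁻¹ * τ) : ℝ) ≤ 3 := by exact_mod_cast h3
  push_cast
  linarith

lemma IsB5.ext (hp : IsB5 p) : (BP p).extremePoints ℝ = Set.range p := by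
  apply Set.Subset.antisymm
  · exact extremePoints_convexHull_subset
  · rintro _ ⟨σ, rfl⟩
    exact isExtreme_singleton.mp (hp.vertex σ).isExtreme

/-- the labelling of the vertices by `S_5` -/
noncomputable def IsB5.lab (hp : IsB5 p) : G ≃ (BP p).extremePoints ℝ :=
  (Equiv.ofInjective p hp.inj).trans (Equiv.setCongr hp.ext.symm)

lemma IsB5.lab_coe (hp : IsB5 p) (σ : G) : (hp.lab σ : F) = p σ := rfl

lemma IsB5.edge_of_sc (hp : IsB5 p) (σ τ : G) (h : sc (cl (σ⁻¹ * τ)) = 1) :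
    IsExposed ℝ (BP p) (segment ℝ (p σ) (p τ)) := by
  apply exposed_pair p (innerSL ℝ (p σ) + innerSL ℝ (p τ)) σ τ
  · simp only [add_apply, innerSL_apply_apply, hp.gram]
    have : τ⁻¹ * σ = (σ⁻¹ * τ)⁻¹ := by group
    rw [this, fx_inv]
    simp only [inv_mul_cancel]
    ring
  · intro ρ h1 h2
    simp only [add_apply, innerSL_apply_apply, hp.gram]
    have e := edge_ineq (σ⁻¹ * τ) h (σ⁻¹ * ρ) (by
      intro h3; exact h1 (inv_mul_eq_one.mp h3).symm) (by
      intro h3; exact h2 (mul_left_cancel h3))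
    have e1 : (σ⁻¹ * ρ)⁻¹ * (σ⁻¹ * τ) = (τ⁻¹ * ρ)⁻¹ := by group
    have e2 : τ⁻¹ * σ = (σ⁻¹ * τ)⁻¹ := by group
    rw [e1, fx_inv] at e
    rw [e2, fx_inv, inv_mul_cancel, fx_one]
    have e3 : (fx (σ⁻¹ * ρ) : ℝ) + fx (τ⁻¹ * ρ) < 5 + fx (σ⁻¹ * τ) := by exact_mod_cast e
    push_cast
    linarith

/-- the parallelogram relation behind the non-edges -/
lemma IsB5.split (hp : IsB5 p) (σ π c : G)
    (hc : ∀ i, (c i = i ∧ (c⁻¹ * π) i = π i) ∨ (c i = π i ∧ (c⁻¹ * π) i = i)) :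
    p σ + p (σ * π) = p (σ * c) + p (σ * (c⁻¹ * π)) := by
  classical
  have h := hp.rel (fun ρ => (if ρ = σ then 1 else 0) + (if ρ = σ * π then 1 else 0)
    - (if ρ = σ * c then 1 else 0) - (if ρ = σ * (c⁻¹ * π) then 1 else 0)) (by
    intro i j
    simp only [sub_mul, add_mul, ite_mul, one_mul, zero_mul, Finset.sum_sub_distrib,
      Finset.sum_add_distrib, Finset.sum_ite_eq', Finset.mem_univ, if_true]
    have h1 : (ent σ i j : ℝ) + ent (σ * π) i j - ent (σ * c) i j - ent (σ * (c⁻¹ * π)) i j = 0 := by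
      have em : ∀ a b : G, ent (a * b) i j = ent a i (b j) := fun _ _ => rfl
      rw [em σ π, em σ c, em σ (c⁻¹ * π)]
      rcases hc j with ⟨h1, h2⟩ | ⟨h1, h2⟩
      · rw [h1, h2]; ring
      · rw [h1, h2]; ring
    rw [h1]; norm_num)
  simp only [sub_smul, add_smul, ite_smul, one_smul, zero_smul, Finset.sum_sub_distrib,
      Finset.sum_add_distrib, Finset.sum_ite_eq', Finset.mem_univ, if_true] at h
  rw [← sub_eq_zero, ← sub_sub]
  exact h

lemma IsB5.not_edge (hp : IsB5 p) (σ τ : G) (hne : σ ≠ τ) (h : sc (cl (σ⁻¹ * τ)) = 0) :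
    ¬ IsExposed ℝ (BP p) (segment ℝ (p σ) (p τ)) := by
  intro hexp
  have hπ : σ⁻¹ * τ ≠ 1 := fun h3 => hne (inv_mul_eq_one.mp h3)
  obtain ⟨c, hc1, hc2, hc⟩ := nonedge_split (σ⁻¹ * τ) h hπ
  have hsplit := hp.split σ (σ⁻¹ * τ) c hc
  rw [mul_inv_cancel_left] at hsplit
  set u := p (σ * c) with hu
  set v := p (σ * (c⁻¹ * (σ⁻¹ * τ))) with hv
  have hmid : (1/2 : ℝ) • p σ + (1/2 : ℝ) • p τ = (1/2 : ℝ) • u + (1/2 : ℝ) • v := by
    rw [← smul_add, ← smul_add, hsplit]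
  have hxseg : (1/2 : ℝ) • p σ + (1/2 : ℝ) • p τ ∈ segment ℝ (p σ) (p τ) :=
    ⟨1/2, 1/2, by norm_num, by norm_num, by norm_num, rfl⟩
  have hxopen : (1/2 : ℝ) • p σ + (1/2 : ℝ) • p τ ∈ openSegment ℝ u v := by
    rw [hmid]; exact ⟨1/2, 1/2, by norm_num, by norm_num, by norm_num, rfl⟩
  have huP : u ∈ BP p := subset_convexHull ℝ _ ⟨_, rfl⟩
  have hvP : v ∈ BP p := subset_convexHull ℝ _ ⟨_, rfl⟩
  have huseg : u ∈ segment ℝ (p σ) (p τ) :=
    hexp.isExtreme.left_mem_of_mem_openSegment huP hvP hxseg hxopen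
  have huext : u ∈ (BP p).extremePoints ℝ := by rw [hp.ext]; exact ⟨_, rfl⟩
  rcases vertex_mem_segment huext (subset_convexHull ℝ _ ⟨_, rfl⟩)
    (subset_convexHull ℝ _ ⟨_, rfl⟩) huseg with h1 | h1
  · have := hp.inj h1
    apply hc1
    simpa using this
  · have := hp.inj h1
    apply hc2
    rw [← this]; group

/-- the labelling is an isomorphism of graphs -/
noncomputable def IsB5.iso (hp : IsB5 p) : G0 ≃g edgeGraph (BP p) where
  toEquiv := hp.lab
  map_rel_iff' := by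
    intro σ τ
    rw [G0_adj]
    constructor
    · rintro ⟨h1, h2⟩
      have hne : σ ≠ τ := fun h => h1 (by rw [h])
      rcases sc_zero_or_one (cl (σ⁻¹ * τ)) with h | h
      · exact absurd h2 (hp.not_edge σ τ hne h)
      · exact h
    · intro h
      refine ⟨?_, hp.edge_of_sc σ τ h⟩
      intro h1
      have := hp.lab.injective h1
      rw [this, inv_mul_cancel, sc_one] at h
      exact absurd h (by norm_num)

lemma image_BP (T : F ≃ₗᵢ[ℝ] F) (π : G ≃ G) (h : ∀ σ, T (p σ) = p (π σ)) :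
    T '' BP p = BP p := by
  unfold BP
  have h1 : (T : F → F) '' convexHull ℝ (Set.range p) = convexHull ℝ ((T : F → F) '' Set.range p) :=
    T.toLinearEquiv.toLinearMap.image_convexHull _
  rw [h1]
  congr 1
  ext x
  constructor
  · rintro ⟨_, ⟨σ, rfl⟩, rfl⟩
    exact ⟨π σ, (h σ).symm⟩
  · rintro ⟨σ, rfl⟩
    exact ⟨p (π.symm σ), ⟨_, rfl⟩, by rw [h, π.apply_symm_apply]⟩

variable [FiniteDimensional ℝ F]

/-- two-sided translations -/
lemma IsB5.exists_trans (hp : IsB5 p) (g h : G) :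
    ∃ T : F ≃ₗᵢ[ℝ] F, T '' BP p = BP p ∧ ∀ σ, T (p σ) = p (g * σ * h⁻¹) := by
  let π : G ≃ G := (Equiv.mulLeft g).trans (Equiv.mulRight h⁻¹)
  have hπ : ∀ σ, π σ = g * σ * h⁻¹ := fun σ => rfl
  obtain ⟨T, hT⟩ := exists_isometry p hp.span π (by
    intro σ τ
    rw [hp.gram, hp.gram, hπ, hπ]
    have : (g * σ * h⁻¹)⁻¹ * (g * τ * h⁻¹) = h * (σ⁻¹ * τ) * h⁻¹ := by group
    rw [this, fx_conj])
  exact ⟨T, image_BP T π hT, hT⟩

lemma IsB5.vertexTransitive (hp : IsB5 p) : VertexTransitive (BP p) := by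
  intro v hv w hw
  rw [hp.ext] at hv hw
  obtain ⟨σ, rfl⟩ := hv
  obtain ⟨τ, rfl⟩ := hw
  obtain ⟨T, hT1, hT2⟩ := hp.exists_trans (τ * σ⁻¹) 1
  refine ⟨T, hT1, ?_⟩
  rw [hT2]; congr 1; group

/-- an automorphism of `G0` preserves `fx (σ⁻¹ τ)` -/
lemma aut_fx (φ : G ≃ G) (hφ : ∀ σ τ, sc (cl ((φ σ)⁻¹ * φ τ)) = sc (cl (σ⁻¹ * τ))) (σ τ : G) :
    fx ((φ σ)⁻¹ * φ τ) = fx (σ⁻¹ * τ) := by
  have hnn : ∀ σ τ, nn (cl ((φ σ)⁻¹ * φ τ)) = nn (cl (σ⁻¹ * τ)) := by
    intro σ τ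
    have key : ∀ a b : G, nn (cl (a⁻¹ * b)) = ∑ ρ : G, sc (cl (a⁻¹ * ρ)) * sc (cl (ρ⁻¹ * b)) := by
      intro a b
      rw [← sum_nn]
      apply Fintype.sum_equiv (Equiv.mulLeft a)
      intro ρ
      have e1 : a⁻¹ * (Equiv.mulLeft a ρ) = ρ := by simp
      have e2 : (Equiv.mulLeft a ρ)⁻¹ * b = ρ⁻¹ * (a⁻¹ * b) := by
        rw [Equiv.coe_mulLeft]; group
      rw [e1, e2]
    rw [key, key]
    symm
    apply Fintype.sum_equiv φ
    intro ρ
    rw [hφ, hφ]
  have htr : ∀ σ τ, tr (cl ((φ σ)⁻¹ * φ τ)) = tr (cl (σ⁻¹ * τ)) := by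
    intro σ τ
    exact tr_iff_aux ⟨_, cl_lt _⟩ ⟨_, cl_lt _⟩ (hφ σ τ) (hnn σ τ)
  have hmm : ∀ σ τ, mm (cl ((φ σ)⁻¹ * φ τ)) = mm (cl (σ⁻¹ * τ)) := by
    intro σ τ
    have key : ∀ a b : G, mm (cl (a⁻¹ * b)) = ∑ ρ : G, tr (cl (a⁻¹ * ρ)) * tr (cl (ρ⁻¹ * b)) := by
      intro a b
      rw [← sum_mm]
      apply Fintype.sum_equiv (Equiv.mulLeft a)
      intro ρ
      have e1 : a⁻¹ * (Equiv.mulLeft a ρ) = ρ := by simp
      have e2 : (Equiv.mulLeft a ρ)⁻¹ * b = ρ⁻¹ * (a⁻¹ * b) := by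
        rw [Equiv.coe_mulLeft]; group
      rw [e1, e2]
    rw [key, key]
    symm
    apply Fintype.sum_equiv φ
    intro ρ
    rw [htr, htr]
  rw [fx_eq, fx_eq]
  refine fx_iff_aux ⟨_, cl_lt _⟩ ⟨_, cl_lt _⟩ ?_ (hφ σ τ) (hnn σ τ) (hmm σ τ)
  change cl ((φ σ)⁻¹ * φ τ) = 0 ↔ cl (σ⁻¹ * τ) = 0
  rw [cl_eq_zero_iff, cl_eq_zero_iff, inv_mul_eq_one, inv_mul_eq_one]
  exact φ.injective.eq_iff

lemma IsB5.realizes (hp : IsB5 p) : RealizesSymmetries (BP p) := by
  intro ψ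
  let χ : G0 ≃g G0 := (hp.iso.trans ψ).trans hp.iso.symm
  have hχ : ∀ σ, hp.iso (χ σ) = ψ (hp.iso σ) := by
    intro σ
    change hp.iso (hp.iso.symm (ψ (hp.iso σ))) = _
    rw [hp.iso.apply_symm_apply]
  have hsc : ∀ σ τ, sc (cl ((χ σ)⁻¹ * χ τ)) = sc (cl (σ⁻¹ * τ)) := by
    intro σ τ
    have h1 : sc (cl ((χ σ)⁻¹ * χ τ)) = 1 ↔ sc (cl (σ⁻¹ * τ)) = 1 := χ.map_adj_iff
    rcases sc_zero_or_one (cl ((χ σ)⁻¹ * χ τ)) with h2 | h2 <;>
    rcases sc_zero_or_one (cl (σ⁻¹ * τ)) with h3 | h3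
    · rw [h2, h3]
    · exact absurd (h1.mpr h3) (by rw [h2]; norm_num)
    · exact absurd (h1.mp h2) (by rw [h3]; norm_num)
    · rw [h2, h3]
  obtain ⟨T, hT⟩ := exists_isometry p hp.span χ.toEquiv (by
    intro σ τ
    rw [hp.gram, hp.gram]
    have := aut_fx χ.toEquiv hsc σ τ
    rw [this])
  refine ⟨T, image_BP T χ.toEquiv hT, ?_⟩
  intro v
  obtain ⟨σ, rfl⟩ := hp.iso.surjective v
  rw [← hχ]
  exact hT σ

omit [FiniteDimensional ℝ F] in
lemma IsB5.sum_transp (hp : IsB5 p) (σ : G) :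
    ∑ t : G, (tr (cl t) : ℝ) • (p σ - p (σ * t)) = (5 : ℝ) • p σ := by
  classical
  have htr : ∑ t : G, tr (cl t) = 10 := by decide +kernel
  have htrR : ∑ t : G, (tr (cl t) : ℝ) = 10 := by exact_mod_cast htr
  have hrel : ∑ ρ : G, ((tr (cl (σ⁻¹ * ρ)) : ℝ) - (if ρ = σ then 5 else 0)) • p ρ = 0 := by
    apply hp.rel
    intro i j
    have e1 : ∑ ρ : G, (tr (cl (σ⁻¹ * ρ)) : ℝ) = 10 := by
      rw [← htrR]
      symm
      apply Fintype.sum_equiv (Equiv.mulLeft σ)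
      intro t; simp
    have e2 : ∑ ρ : G, (tr (cl (σ⁻¹ * ρ)) : ℝ) * (ent ρ i j : ℝ) = 1 + 5 * ent σ i j := by
      have h1 : ∑ ρ : G, (tr (cl (σ⁻¹ * ρ)) : ℝ) * (ent ρ i j : ℝ) =
          ∑ t : G, (tr (cl t) : ℝ) * (ent t (σ⁻¹ i) j : ℝ) := by
        symm
        apply Fintype.sum_equiv (Equiv.mulLeft σ)
        intro t
        have e3 : σ⁻¹ * (Equiv.mulLeft σ t) = t := by simp
        have e4 : ent (Equiv.mulLeft σ t) i j = ent t (σ⁻¹ i) j := by
          unfold ent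
          have : ((Equiv.mulLeft σ t : G) j = i) ↔ (t j = σ⁻¹ i) := by
            rw [Equiv.coe_mulLeft, Perm.mul_apply, Perm.eq_inv_iff_eq]
          simp only [this]
        rw [e3, e4]
      rw [h1]
      have h2 := Pool.Agent.Lib_helper75.Spectral.sum_transp (σ⁻¹ i) j
      have h3 : ((∑ t : G, tr (cl t) * ent t (σ⁻¹ i) j : ℤ) : ℝ) = ((1 + 5 * ent 1 (σ⁻¹ i) j : ℤ) : ℝ) := by
        rw [h2]
      push_cast at h3
      rw [h3]
      have e5 : ent 1 (σ⁻¹ i) j = ent σ i j := by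
        unfold ent
        have : ((1 : G) j = σ⁻¹ i) ↔ (σ j = i) := by
          rw [Perm.one_apply, Perm.eq_inv_iff_eq]
        simp only [this]
      rw [e5]
    simp only [sub_mul, Finset.sum_sub_distrib, ite_mul, zero_mul, Finset.sum_ite_eq',
      Finset.mem_univ, if_true]
    rw [e1, e2]
    ring
  have e6 : ∑ t : G, (tr (cl t) : ℝ) • p (σ * t) = (5 : ℝ) • p σ := by
    have h1 : ∑ t : G, (tr (cl t) : ℝ) • p (σ * t) = ∑ ρ : G, (tr (cl (σ⁻¹ * ρ)) : ℝ) • p ρ := by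
      apply Fintype.sum_equiv (Equiv.mulLeft σ)
      intro t; simp
    rw [h1]
    simp only [sub_smul, Finset.sum_sub_distrib, ite_smul, zero_smul, Finset.sum_ite_eq',
      Finset.mem_univ, if_true] at hrel
    exact sub_eq_zero.mp hrel
  simp only [smul_sub, Finset.sum_sub_distrib]
  rw [e6, ← Finset.sum_smul, htrR, ← sub_smul]
  norm_num

omit [FiniteDimensional ℝ F] in
lemma IsB5.double_diff (hp : IsB5 p) (τ : G) :
    p τ - p (swap 0 1 * τ) - p (τ * swap 0 1) + p (swap 0 1 * τ * swap 0 1) =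
      ⟪p τ, p 1 - p (swap 0 1)⟫ • (p 1 - p (swap 0 1)) := by
  classical
  have hin : ⟪p τ, p 1 - p (swap 0 1)⟫ = (fx τ : ℝ) - fx (τ⁻¹ * swap 0 1) := by
    rw [inner_sub_right, hp.gram, hp.gram, mul_one, fx_inv]; ring
  rw [hin]
  set c : ℝ := (fx τ : ℝ) - fx (τ⁻¹ * swap 0 1) with hc
  have h := hp.rel (fun ρ => (if ρ = τ then 1 else 0) - (if ρ = swap 0 1 * τ then 1 else 0)
    - (if ρ = τ * swap 0 1 then 1 else 0) + (if ρ = swap 0 1 * τ * swap 0 1 then 1 else 0)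
    - ((if ρ = 1 then c else 0) - (if ρ = swap 0 1 then c else 0))) (by
    intro i j
    simp only [sub_mul, add_mul, ite_mul, one_mul, zero_mul, Finset.sum_sub_distrib,
      Finset.sum_add_distrib, Finset.sum_ite_eq', Finset.mem_univ, if_true]
    have h1 := Pool.Agent.Lib_helper75.Spectral.double_diff τ i j
    have h2 : ((ent τ i j - ent (swap 0 1 * τ) i j - ent (τ * swap 0 1) i j +
        ent (swap 0 1 * τ * swap 0 1) i j : ℤ) : ℝ)
      = ((((fx τ : ℤ) - fx (τ⁻¹ * swap 0 1)) * (ent 1 i j - ent (swap 0 1) i j) : ℤ) : ℝ) := by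
      rw [h1]
    push_cast at h2
    rw [← hc] at h2
    linarith)
  simp only [sub_smul, add_smul, ite_smul, one_smul, zero_smul, Finset.sum_sub_distrib,
      Finset.sum_add_distrib, Finset.sum_ite_eq', Finset.mem_univ, if_true] at h
  rw [smul_sub]
  exact sub_eq_zero.mp h

lemma IsB5.irreducible (hp : IsB5 p) : IrreducibleSymmetries (BP p) := by
  intro W hW
  set q0 : F := p 1 - p (swap 0 1) with hq0
  -- the elements `p σ - p (σ t)` are images of `q0`
  have horbit : ∀ σ t : G, tr (cl t) ≠ 0 →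
      ∃ T : F ≃ₗᵢ[ℝ] F, T '' BP p = BP p ∧ T q0 = p σ - p (σ * t) := by
    intro σ t ht
    have hcl : cl t = 1 := by
      have : ∀ k : Fin 7, tr k ≠ 0 → (k : ℕ) = 1 := by decide
      exact this ⟨cl t, cl_lt t⟩ ht
    obtain ⟨h, hh⟩ := exists_conj t
    rw [hcl] at hh
    have hh' : t = h * swap 0 1 * h⁻¹ := by
      have : rep 1 = swap 0 1 := rfl
      rw [← this, ← hh]; group
    obtain ⟨T, hT1, hT2⟩ := hp.exists_trans (σ * h) h
    refine ⟨T, hT1, ?_⟩
    rw [hq0, map_sub, hT2, hT2]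
    have e1 : σ * h * 1 * h⁻¹ = σ := by group
    have e2 : σ * h * swap 0 1 * h⁻¹ = σ * t := by rw [hh']; group
    rw [e1, e2]
  obtain ⟨T1, hT1, hT1'⟩ := hp.exists_trans (swap 0 1) 1
  obtain ⟨T2, hT2, hT2'⟩ := hp.exists_trans 1 (swap 0 1)
  obtain ⟨T3, hT3, hT3'⟩ := hp.exists_trans (swap 0 1) (swap 0 1)
  have hswap : (swap 0 1 : G)⁻¹ = swap 0 1 := by rw [swap_inv]
  have hD : ∀ x : F, x - T1 x - T2 x + T3 x = ⟪x, q0⟫ • q0 := by
    intro x
    have hx : x ∈ Submodule.span ℝ (Set.range p) := by rw [hp.span]; trivial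
    induction hx using Submodule.span_induction with
    | mem x hx =>
      obtain ⟨τ, rfl⟩ := hx
      rw [hT1', hT2', hT3', hswap, inv_one, mul_one, one_mul]
      exact hp.double_diff τ
    | zero => simp
    | add x y _ _ hx hy =>
      rw [inner_add_left, add_smul, ← hx, ← hy, map_add, map_add, map_add]
      abel
    | smul a x _ hx =>
      rw [inner_smul_left, map_smul, map_smul, map_smul]
      simp only [RCLike.conj_to_real]
      rw [mul_smul, ← hx, smul_add, smul_sub, smul_sub]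
  by_cases hex : ∃ w ∈ W, ⟪w, q0⟫ ≠ 0
  · right
    obtain ⟨w, hw, hwq⟩ := hex
    have hq0W : q0 ∈ W := by
      have h1 : ⟪w, q0⟫ • q0 ∈ W := by
        rw [← hD w]
        exact W.add_mem (W.sub_mem (W.sub_mem hw (hW T1 hT1 w hw)) (hW T2 hT2 w hw))
          (hW T3 hT3 w hw)
      have h2 := W.smul_mem (⟪w, q0⟫)⁻¹ h1
      rwa [smul_smul, inv_mul_cancel₀ hwq, one_smul] at h2
    rw [eq_top_iff, ← hp.span, Submodule.span_le]
    rintro _ ⟨σ, rfl⟩
    have h5 : (5 : ℝ) • p σ ∈ W := by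
      rw [← hp.sum_transp σ]
      apply W.sum_mem
      intro t _
      by_cases ht : tr (cl t) = 0
      · rw [ht]; simp
      · obtain ⟨T, hT, hT'⟩ := horbit σ t ht
        rw [← hT']
        exact W.smul_mem _ (hW T hT q0 hq0W)
    have h6 := W.smul_mem (5 : ℝ)⁻¹ h5
    rwa [smul_smul, inv_mul_cancel₀ (by norm_num : (5 : ℝ) ≠ 0), one_smul] at h6
  · left
    push Not at hex
    rw [eq_bot_iff]
    intro w hw
    -- `w` is orthogonal to every `T q0`
    have horth : ∀ T : F ≃ₗᵢ[ℝ] F, T '' BP p = BP p → ⟪w, T q0⟫ = 0 := by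
      intro T hT
      have hTs : T.symm '' BP p = BP p := by
        conv_lhs => rw [← hT]
        rw [← Set.image_comp]
        have : (T.symm ∘ T : F → F) = id := by funext x; simp
        rw [this, Set.image_id]
      have h1 := hex (T.symm w) (hW T.symm hTs w hw)
      rw [← T.inner_map_map, T.apply_symm_apply] at h1
      exact h1
    have h5 : ∀ σ, ⟪w, p σ⟫ = 0 := by
      intro σ
      have h6 : ⟪w, (5 : ℝ) • p σ⟫ = 0 := by
        rw [← hp.sum_transp σ, inner_sum]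
        apply Finset.sum_eq_zero
        intro t _
        rw [inner_smul_right]
        by_cases ht : tr (cl t) = 0
        · rw [ht]; simp
        · obtain ⟨T, hT, hT'⟩ := horbit σ t ht
          rw [← hT', horth T hT, mul_zero]
      rw [inner_smul_right] at h6
      linarith
    have h7 : ∀ x ∈ Submodule.span ℝ (Set.range p), ⟪w, x⟫ = 0 := by
      intro x hx
      induction hx using Submodule.span_induction with
      | mem x hx => obtain ⟨τ, rfl⟩ := hx; exact h5 τ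
      | zero => simp
      | add x y _ _ hx hy => rw [inner_add_right, hx, hy, add_zero]
      | smul a x _ hx => rw [inner_smul_right, hx, mul_zero]
    have h8 := h7 w (by rw [hp.span]; trivial)
    rw [Submodule.mem_bot]
    exact inner_self_eq_zero.mp h8

omit [FiniteDimensional ℝ F] in
lemma IsB5.isPolytope (hp : IsB5 p) : IsPolytope (BP p) := by
  have hsum : ∑ σ, p σ = 0 := by
    have h := hp.rel (fun _ => 1) (by
      intro i j
      have h1 : ((∑ σ : G, ent σ i j : ℤ) : ℝ) = ((24 : ℤ) : ℝ) := by rw [sum_ent_all]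
      push_cast at h1
      have h2 : ∑ _σ : G, (1 : ℝ) = 120 := by
        rw [Finset.sum_const, Finset.card_univ, Fintype.card_perm]
        norm_num [Nat.factorial]
      simp only [one_mul]
      rw [h1, h2]; norm_num)
    simpa using h
  refine ⟨⟨_, BP_eq p⟩, ?_, ?_⟩
  · have h0 : (0 : F) ∈ affineSpan ℝ (BP p) := by
      apply convexHull_subset_affineSpan
      have h1 : (0 : F) = ∑ σ : G, (1 / 120 : ℝ) • p σ := by
        rw [← Finset.smul_sum, hsum, smul_zero]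
      rw [h1]
      apply (convex_convexHull ℝ _).sum_mem
      · intro i _; norm_num
      · rw [Finset.sum_const, Finset.card_univ, Fintype.card_perm]
        norm_num [Nat.factorial]
      · intro i _
        exact subset_convexHull ℝ _ (subset_convexHull ℝ _ ⟨i, rfl⟩)
    have hdir : (affineSpan ℝ (BP p)).direction = ⊤ := by
      rw [eq_top_iff, ← hp.span, Submodule.span_le]
      rintro _ ⟨σ, rfl⟩
      have h1 : p σ ∈ affineSpan ℝ (BP p) :=
        subset_affineSpan ℝ _ (subset_convexHull ℝ _ ⟨σ, rfl⟩)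
      have h2 := AffineSubspace.vsub_mem_direction h1 h0
      simpa using h2
    exact (AffineSubspace.direction_eq_top_iff_of_nonempty ⟨0, h0⟩).mp hdir
  · rw [hp.ext]
    rw [finsum_mem_range hp.inj, finsum_eq_sum_of_fintype]
    exact hsum

end

end Pool.Agent.Lib_helper75.Spectral
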