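import Pool.Agent.Lib_helper75.Spectral.Birkhoff

/-!
Realisation of the centred permutation matrices of order five in a Euclidean space.
-/

open scoped RealInnerProductSpace
open Equiv

namespace Pool.Agent.Lib_helper75.Spectral

/-- the space of `5 × 5` matrices -/
abbrev M5 := EuclideanSpace ℝ (Fin 5 × Fin 5)

/-- the permutation matrix of `σ`, centred -/
noncomputable def pm (σ : G) : M5 := WithLp.toLp 2 (fun ij => (ent σ ij.1 ij.2 : ℝ) - 1 / 5)

lemma pm_apply (σ : G) (ij : Fin 5 × Fin 5) : pm σ ij = (ent σ ij.1 ij.2 : ℝ) - 1 / 5 := rfl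

lemma sum_ent (σ : G) : ∑ ij : Fin 5 × Fin 5, ent σ ij.1 ij.2 = 5 := by
  rw [Fintype.sum_prod_type, Finset.sum_comm]
  simp [ent]

lemma sum_ent_mul (σ τ : G) :
    ∑ ij : Fin 5 × Fin 5, ent σ ij.1 ij.2 * ent τ ij.1 ij.2 = fx (σ⁻¹ * τ) := by
  rw [Fintype.sum_prod_type, Finset.sum_comm]
  have h : ∀ j : Fin 5, ∑ i : Fin 5, ent σ i j * ent τ i j = if (σ⁻¹ * τ) j = j then 1 else 0 := by
    intro j
    unfold ent
    have h2 : ((σ⁻¹ * τ) j = j) ↔ σ j = τ j := by
      rw [Perm.mul_apply, Perm.inv_eq_iff_eq]; exact eq_comm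
    simp only [h2]
    by_cases hj : σ j = τ j
    · simp [hj]
    · simp only [hj, if_false]
      apply Finset.sum_eq_zero
      intro i _
      by_cases h3 : σ j = i
      · have : ¬ τ j = i := fun h4 => hj (h3.trans h4.symm)
        simp [this]
      · simp [h3]
  simp only [h]
  unfold fx
  rw [Finset.card_filter]
  push_cast
  rfl

lemma inner_pm (σ τ : G) : ⟪pm σ, pm τ⟫ = (fx (σ⁻¹ * τ) : ℝ) - 1 := by
  have h1 : ⟪pm σ, pm τ⟫ = ∑ ij : Fin 5 × Fin 5,
      ((ent σ ij.1 ij.2 : ℝ) - 1 / 5) * ((ent τ ij.1 ij.2 : ℝ) - 1 / 5) := by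
    rw [PiLp.inner_apply]
    congr 1; funext ij
    rw [pm_apply, pm_apply]
    simp [mul_comm]
  have h2 : ∀ ij : Fin 5 × Fin 5,
      ((ent σ ij.1 ij.2 : ℝ) - 1 / 5) * ((ent τ ij.1 ij.2 : ℝ) - 1 / 5) =
      ((ent σ ij.1 ij.2 * ent τ ij.1 ij.2 : ℤ) : ℝ) - (1 / 5) * ((ent σ ij.1 ij.2 : ℤ) : ℝ)
        - (1 / 5) * ((ent τ ij.1 ij.2 : ℤ) : ℝ) + 1 / 25 := by
    intro ij; push_cast; ring
  rw [h1]
  simp only [h2]
  rw [Finset.sum_add_distrib, Finset.sum_sub_distrib, Finset.sum_sub_distrib, ← Finset.mul_sum,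
    ← Finset.mul_sum, ← Int.cast_sum, ← Int.cast_sum, ← Int.cast_sum, sum_ent, sum_ent, sum_ent_mul]
  rw [Finset.sum_const, Finset.card_univ, Fintype.card_prod, Fintype.card_fin]
  norm_num

/-- the span of the centred permutation matrices -/
noncomputable abbrev KK : Submodule ℝ M5 := Submodule.span ℝ (Set.range pm)

/-- the vertices inside `KK` -/
noncomputable def pk (σ : G) : KK := ⟨pm σ, Submodule.subset_span ⟨σ, rfl⟩⟩

/-- coordinates on `KK` -/
noncomputable def UU : KK ≃ₗᵢ[ℝ] EuclideanSpace ℝ (Fin (Module.finrank ℝ KK)) :=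
  (stdOrthonormalBasis ℝ KK).repr

/-- the vertices of the Birkhoff polytope in Euclidean coordinates -/
noncomputable def pB (σ : G) : EuclideanSpace ℝ (Fin (Module.finrank ℝ KK)) := UU (pk σ)

lemma span_pk : Submodule.span ℝ (Set.range pk) = ⊤ := by
  have h := Submodule.span_span_coe_preimage (R := ℝ) (s := Set.range pm)
  rw [← h]
  congr 1
  ext x
  constructor
  · rintro ⟨σ, rfl⟩
    exact ⟨σ, rfl⟩
  · rintro ⟨σ, hσ⟩
    exact ⟨σ, Subtype.ext hσ⟩

theorem isB5_pB : IsB5 pB where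
  gram := by
    intro σ τ
    unfold pB
    rw [UU.inner_map_map]
    exact inner_pm σ τ
  span := by
    have h1 : Set.range pB = (UU.toLinearEquiv.toLinearMap : KK → _) '' Set.range pk := by
      rw [← Set.range_comp]; rfl
    rw [h1, ← Submodule.map_span, span_pk, Submodule.map_top]
    exact LinearEquiv.range _
  rel := by
    intro a ha
    have h1 : ∑ σ, a σ • pm σ = 0 := by
      ext ij
      have h2 : (∑ σ, a σ • pm σ) ij = ∑ σ, a σ * ((ent σ ij.1 ij.2 : ℝ) - 1 / 5) := by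
        rw [WithLp.ofLp_sum, Finset.sum_apply]
        rfl
      rw [h2]
      simp only [mul_sub, Finset.sum_sub_distrib]
      rw [ha, ← Finset.sum_mul]
      simp only [PiLp.zero_apply]
      ring
    have h3 : ∑ σ, a σ • pk σ = 0 := by
      apply Subtype.ext
      rw [AddSubmonoidClass.coe_finsetSum]
      exact h1
    have h4 : ∑ σ, a σ • pB σ = UU (∑ σ, a σ • pk σ) := by
      rw [map_sum]
      congr 1; funext σ
      rw [map_smul]; rfl
    rw [h4, h3, map_zero]

end Pool.Agent.Lib_helper75.Spectral
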