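import Mathlib

/-!
Definitions: polytopes, edge-graphs, symmetries, spectral polytopes, combinatorial equivalence.
-/

open scoped RealInnerProductSpace

namespace Pool.Agent.Lib_helper75.Spectral

/-- A full-dimensional polytope whose vertices have their barycentre at the origin. -/
structure IsPolytope {E : Type*} [NormedAddCommGroup E] [NormedSpace ℝ E] (P : Set E) : Prop where
  hull : ∃ s : Finset E, P = convexHull ℝ (s : Set E)
  full : affineSpan ℝ P = ⊤
  barycentre : ∑ᶠ v ∈ P.extremePoints ℝ, v = 0

/-- The edge-graph: vertices are the extreme points, edges the segments between two distinct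
vertices that are (exposed) faces. -/
def edgeGraph {E : Type*} [NormedAddCommGroup E] [NormedSpace ℝ E] (P : Set E) :
    SimpleGraph (P.extremePoints ℝ) where
  Adj v w := v ≠ w ∧ IsExposed ℝ P (segment ℝ (v : E) (w : E))
  symm := ⟨fun v w h => ⟨h.1.symm, by rw [segment_symm]; exact h.2⟩⟩
  loopless := ⟨fun v h => h.1 rfl⟩

/-- (i) the orthogonal symmetries of `P` act transitively on the vertices -/
def VertexTransitive {E : Type*} [NormedAddCommGroup E] [InnerProductSpace ℝ E]
    (P : Set E) : Prop :=
  ∀ v ∈ P.extremePoints ℝ, ∀ w ∈ P.extremePoints ℝ, ∃ T : E ≃ₗᵢ[ℝ] E, T '' P = P ∧ T v = w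

/-- (ii) every automorphism of the edge-graph is induced by an orthogonal symmetry of `P` -/
def RealizesSymmetries {E : Type*} [NormedAddCommGroup E] [InnerProductSpace ℝ E]
    (P : Set E) : Prop :=
  ∀ φ : edgeGraph P ≃g edgeGraph P, ∃ T : E ≃ₗᵢ[ℝ] E, T '' P = P ∧
    ∀ v : P.extremePoints ℝ, T (v : E) = (φ v : E)

/-- (iii) the group of orthogonal symmetries of `P` is irreducible -/
def IrreducibleSymmetries {E : Type*} [NormedAddCommGroup E] [InnerProductSpace ℝ E]
    (P : Set E) : Prop :=
  ∀ W : Submodule ℝ E, (∀ T : E ≃ₗᵢ[ℝ] E, T '' P = P → ∀ w ∈ W, T w ∈ W) → W = ⊥ ∨ W = ⊤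

open Classical in
/-- `P` is spectral: label its vertices by `1, …, n`, let `A` be the adjacency matrix of the
edge-graph; there are an eigenvalue `θ` of `A` and a matrix `Φ` whose columns form a basis of the
`θ`-eigenspace of `A`, and an invertible linear map sending the vertex `i` of `P` to the `i`-th
row of `Φ` and `P` onto the convex hull of the rows. -/
def IsSpectral {E : Type*} [NormedAddCommGroup E] [NormedSpace ℝ E] (P : Set E) : Prop :=
  ∃ (n e : ℕ) (lab : Fin n ≃ P.extremePoints ℝ) (θ : ℝ) (Φ : Matrix (Fin n) (Fin e) ℝ)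
    (L : E ≃ₗ[ℝ] (Fin e → ℝ)),
    Module.End.HasEigenvalue
      (Matrix.toLin' (((edgeGraph P).comap lab).adjMatrix ℝ)) θ ∧
    LinearIndependent ℝ Φ.col ∧
    Submodule.span ℝ (Set.range Φ.col) =
      Module.End.eigenspace (Matrix.toLin' (((edgeGraph P).comap lab).adjMatrix ℝ)) θ ∧
    (∀ i, L (lab i : E) = Φ i) ∧
    L '' P = convexHull ℝ (Set.range Φ.row)

/-- Combinatorial equivalence: the face lattices (all exposed faces, the empty one included, ordered
by inclusion) are isomorphic. -/
def CombEquiv {E F : Type*} [NormedAddCommGroup E] [NormedSpace ℝ E]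
    [NormedAddCommGroup F] [NormedSpace ℝ F] (P : Set E) (Q : Set F) : Prop :=
  Nonempty ({A : Set E // IsExposed ℝ P A} ≃o {B : Set F // IsExposed ℝ Q B})

end Pool.Agent.Lib_helper75.Spectral
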