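import Pool.Agent.Lib_helper75.Spectral.Defs

/-!
General lemmas on polytopes.
-/

open scoped RealInnerProductSpace

namespace Pool.Agent.Lib_helper75.Spectral

section hull

variable {E : Type*} [NormedAddCommGroup E] [NormedSpace ℝ E] {ι : Type*} [Fintype ι]

lemma mem_hull_range (q : ι → E) {x : E} (hx : x ∈ convexHull ℝ (Set.range q)) :
    ∃ w : ι → ℝ, (∀ i, 0 ≤ w i) ∧ ∑ i, w i = 1 ∧ ∑ i, w i • q i = x := by
  classical
  let S : Set E := {x | ∃ w : ι → ℝ, (∀ i, 0 ≤ w i) ∧ ∑ i, w i = 1 ∧ ∑ i, w i • q i = x}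
  have hS : Convex ℝ S := by
    rintro x ⟨w, hw, hw1, rfl⟩ y ⟨v, hv, hv1, rfl⟩ a b ha hb hab
    refine ⟨fun i => a * w i + b * v i, fun i => ?_, ?_, ?_⟩
    · exact add_nonneg (mul_nonneg ha (hw i)) (mul_nonneg hb (hv i))
    · rw [Finset.sum_add_distrib, ← Finset.mul_sum, ← Finset.mul_sum, hw1, hv1]; linarith
    · rw [Finset.smul_sum, Finset.smul_sum, ← Finset.sum_add_distrib]
      congr 1; funext i
      rw [add_smul, mul_smul, mul_smul]
  have hsub : Set.range q ⊆ S := by
    rintro _ ⟨i, rfl⟩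
    refine ⟨Pi.single i 1, fun j => ?_, ?_, ?_⟩
    · by_cases h : j = i
      · subst h; simp
      · simp [h]
    · simp
    · rw [Finset.sum_eq_single i]
      · simp
      · intro j _ hj; simp [hj]
      · intro h; exact absurd (Finset.mem_univ i) h
  exact convexHull_min hsub hS hx

lemma exposed_general (q : ι → E) (l : E →L[ℝ] ℝ) (m : ℝ) (J : Set ι)
    (h1 : ∀ i ∈ J, l (q i) = m) (h2 : ∀ i, i ∉ J → l (q i) < m) :
    IsExposed ℝ (convexHull ℝ (Set.range q)) (convexHull ℝ (q '' J)) := by
  classical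
  intro hne
  have hJ : J.Nonempty := by
    rw [convexHull_nonempty_iff] at hne
    exact Set.image_nonempty.mp hne
  obtain ⟨j0, hj0⟩ := hJ
  have hle : ∀ i, l (q i) ≤ m := fun i => by
    by_cases h : i ∈ J
    · exact (h1 i h).le
    · exact (h2 i h).le
  have hmax : ∀ y ∈ convexHull ℝ (Set.range q), l y ≤ m := by
    intro y hy
    obtain ⟨w, hw, hw1, rfl⟩ := mem_hull_range q hy
    rw [map_sum]
    calc ∑ i, l (w i • q i) = ∑ i, w i * l (q i) := by simp
      _ ≤ ∑ i, w i * m := Finset.sum_le_sum fun i _ => mul_le_mul_of_nonneg_left (hle i) (hw i)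
      _ = m := by rw [← Finset.sum_mul, hw1, one_mul]
  have hJm : ∀ x ∈ convexHull ℝ (q '' J), l x = m := by
    intro x hx
    have hconv : Convex ℝ {x : E | l x = m} := by
      intro x hx y hy a b _ _ hab
      change l (a • x + b • y) = m
      have hx' : l x = m := hx
      have hy' : l y = m := hy
      rw [map_add, map_smul, map_smul, hx', hy', smul_eq_mul, smul_eq_mul, ← add_mul, hab, one_mul]
    exact convexHull_min (by rintro _ ⟨i, hi, rfl⟩; exact h1 i hi) hconv hx
  refine ⟨l, ?_⟩
  ext x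
  constructor
  · intro hx
    refine ⟨convexHull_mono (Set.image_subset_range q J) hx, ?_⟩
    intro y hy
    rw [hJm x hx]
    exact hmax y hy
  · rintro ⟨hx, hx'⟩
    obtain ⟨w, hw, hw1, rfl⟩ := mem_hull_range q hx
    have hge : m ≤ l (∑ i, w i • q i) := by
      rw [← h1 j0 hj0]
      exact hx' _ (subset_convexHull ℝ _ ⟨j0, rfl⟩)
    have hsum : ∑ i, w i * (m - l (q i)) = 0 := by
      apply le_antisymm
      · have : ∑ i, w i * (m - l (q i)) = m - l (∑ i, w i • q i) := by
          simp only [mul_sub, Finset.sum_sub_distrib, ← Finset.sum_mul, hw1, one_mul, map_sum,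
            map_smul, smul_eq_mul]
        rw [this]; linarith
      · exact Finset.sum_nonneg fun i _ => mul_nonneg (hw i) (by linarith [hle i])
    have hzero : ∀ i, i ∉ J → w i = 0 := by
      intro i hi
      have := (Finset.sum_eq_zero_iff_of_nonneg
        (fun i _ => mul_nonneg (hw i) (by linarith [hle i]))).mp hsum i (Finset.mem_univ i)
      rcases mul_eq_zero.mp this with h | h
      · exact h
      · exfalso; linarith [h2 i hi]
    have e1 : ∑ i, w i • q i = ∑ i ∈ Finset.univ.filter (· ∈ J), w i • q i := by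
      symm
      apply Finset.sum_subset (Finset.subset_univ _)
      intro i _ hi
      have : i ∉ J := by simpa using hi
      rw [hzero i this, zero_smul]
    have e2 : ∑ i ∈ Finset.univ.filter (· ∈ J), w i = 1 := by
      rw [← hw1]
      apply Finset.sum_subset (Finset.subset_univ _)
      intro i _ hi
      have : i ∉ J := by simpa using hi
      exact hzero i this
    rw [e1]
    apply (convex_convexHull ℝ (q '' J)).sum_mem (fun i _ => hw i) e2
    intro i hi
    apply subset_convexHull
    exact ⟨i, by simpa using hi, rfl⟩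

lemma exposed_pair (q : ι → E) (l : E →L[ℝ] ℝ) (a b : ι) (hab : l (q a) = l (q b))
    (hlt : ∀ i, i ≠ a → i ≠ b → l (q i) < l (q a)) :
    IsExposed ℝ (convexHull ℝ (Set.range q)) (segment ℝ (q a) (q b)) := by
  have := exposed_general q l (l (q a)) {a, b} (by
    rintro i (rfl | rfl)
    · rfl
    · exact hab.symm) (by
    intro i hi
    simp only [Set.mem_insert_iff, Set.mem_singleton_iff, not_or] at hi
    exact hlt i hi.1 hi.2)
  rwa [Set.image_pair, convexHull_pair] at this

lemma exposed_single (q : ι → E) (l : E →L[ℝ] ℝ) (a : ι)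
    (hlt : ∀ i, i ≠ a → l (q i) < l (q a)) :
    IsExposed ℝ (convexHull ℝ (Set.range q)) {q a} := by
  have := exposed_general q l (l (q a)) {a} (by
    rintro i rfl
    rfl) (by
    intro i hi
    exact hlt i (by simpa using hi))
  rwa [Set.image_singleton, convexHull_singleton] at this

end hull

section faces

variable {E : Type*} [NormedAddCommGroup E] [NormedSpace ℝ E]

/-- vertices of a polytope are exposed -/
lemma vertex_exposed (s : Finset E) {x : E} (hx : x ∈ (convexHull ℝ (s : Set E)).extremePoints ℝ) :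
    IsExposed ℝ (convexHull ℝ (s : Set E)) {x} := by
  classical
  have hxs : x ∈ s := by
    have := extremePoints_convexHull_subset hx
    exact_mod_cast this
  have hconv : Convex ℝ (convexHull ℝ (s : Set E)) := convex_convexHull ℝ _
  have hx2 := (hconv.mem_extremePoints_iff_mem_sdiff_convexHull_sdiff).mp hx
  have hsub : ((s.erase x : Finset E) : Set E) ⊆ convexHull ℝ (s : Set E) \ {x} := by
    intro y hy
    have hy' : y ≠ x ∧ y ∈ s := by
      have : y ∈ s.erase x := by exact_mod_cast hy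
      exact Finset.mem_erase.mp this
    exact ⟨subset_convexHull ℝ _ (by exact_mod_cast hy'.2), by simpa using hy'.1⟩
  have hxK : x ∉ convexHull ℝ ((s.erase x : Finset E) : Set E) := fun h =>
    hx2.2 (convexHull_mono hsub h)
  have hclosed : IsClosed (convexHull ℝ ((s.erase x : Finset E) : Set E)) :=
    (s.erase x).finite_toSet.isClosed_convexHull ℝ
  obtain ⟨f, u, hfx, hfb⟩ := geometric_hahn_banach_point_closed
    (convex_convexHull ℝ ((s.erase x : Finset E) : Set E)) hclosed hxK
  have hrange : Set.range (fun y : s => (y : E)) = (s : Set E) := by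
    simp
  have := exposed_single (fun y : s => (y : E)) (-f) ⟨x, hxs⟩ (by
    rintro ⟨y, hy⟩ hne
    have hyx : y ≠ x := fun h => hne (by simp [h])
    have h1 := hfb y (subset_convexHull ℝ _ (by simp [hyx, hy]))
    change - f y < - f x
    linarith)
  rw [hrange] at this
  exact this

/-- a face of a polytope is the hull of the vertices it contains -/
lemma face_eq (s : Finset E) {A : Set E} (hA : IsExposed ℝ (convexHull ℝ (s : Set E)) A) :
    A = convexHull ℝ (A ∩ (convexHull ℝ (s : Set E)).extremePoints ℝ) := by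
  classical
  have hcomp : IsCompact (convexHull ℝ (s : Set E)) := s.finite_toSet.isCompact_convexHull ℝ
  have hAc : IsCompact A := hA.isCompact hcomp
  have hAconv : Convex ℝ A := hA.convex (convex_convexHull ℝ _)
  have hext : A.extremePoints ℝ = A ∩ (convexHull ℝ (s : Set E)).extremePoints ℝ :=
    hA.isExtreme.extremePoints_eq
  have hfin : (A ∩ (convexHull ℝ (s : Set E)).extremePoints ℝ).Finite := by
    apply s.finite_toSet.subset
    intro x hx
    exact extremePoints_convexHull_subset hx.2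
  have h1 := closure_convexHull_extremePoints hAc hAconv
  rw [hext, (hfin.isClosed_convexHull ℝ).closure_eq] at h1
  exact h1.symm

lemma vertex_mem_segment {P : Set E} {u v w : E} (hu : u ∈ P.extremePoints ℝ) (hv : v ∈ P)
    (hw : w ∈ P) (h : u ∈ segment ℝ v w) : u = v ∨ u = w := by
  rcases (mem_extremePoints_iff_forall_segment.mp hu).2 v hv w hw h with h | h
  · exact Or.inl h.symm
  · exact Or.inr h.symm

end faces

section comb

variable {E F : Type*} [NormedAddCommGroup E] [NormedSpace ℝ E]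
  [NormedAddCommGroup F] [NormedSpace ℝ F]

/-- image of a vertex under an isomorphism of face lattices -/
lemma vertex_image (s : Finset E) (t : Finset F)
    (Ψ : {A : Set E // IsExposed ℝ (convexHull ℝ (s : Set E)) A} ≃o
      {B : Set F // IsExposed ℝ (convexHull ℝ (t : Set F)) B})
    (v : (convexHull ℝ (s : Set E)).extremePoints ℝ) :
    ∃ w : (convexHull ℝ (t : Set F)).extremePoints ℝ,
      ((Ψ ⟨{(v : E)}, vertex_exposed s v.2⟩ : _) : Set F) = {(w : F)} := by
  set A : {A : Set E // IsExposed ℝ (convexHull ℝ (s : Set E)) A} :=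
    ⟨{(v : E)}, vertex_exposed s v.2⟩ with hA
  have hbotP : ∀ B : {A : Set E // IsExposed ℝ (convexHull ℝ (s : Set E)) A},
      (⟨∅, isExposed_empty⟩ : {A : Set E // IsExposed ℝ (convexHull ℝ (s : Set E)) A}) ≤ B :=
    fun B => Set.empty_subset _
  have hbotQ : ∀ B : {B : Set F // IsExposed ℝ (convexHull ℝ (t : Set F)) B},
      (⟨∅, isExposed_empty⟩ : {B : Set F // IsExposed ℝ (convexHull ℝ (t : Set F)) B}) ≤ B :=
    fun B => Set.empty_subset _
  have hΨbot : Ψ ⟨∅, isExposed_empty⟩ = ⟨∅, isExposed_empty⟩ := by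
    apply le_antisymm
    · rw [← Ψ.symm.le_iff_le, Ψ.symm_apply_apply]
      exact hbotP _
    · exact hbotQ _
  have hne : ((Ψ A : _) : Set F).Nonempty := by
    rw [Set.nonempty_iff_ne_empty]
    intro h
    have h1 : Ψ A = Ψ ⟨∅, isExposed_empty⟩ := by
      rw [hΨbot]; exact Subtype.ext h
    have h2 := Ψ.injective h1
    have h3 := congrArg Subtype.val h2
    simp [hA] at h3
  have hhull := face_eq t (Ψ A).2
  have hne2 : (((Ψ A : _) : Set F) ∩ (convexHull ℝ (t : Set F)).extremePoints ℝ).Nonempty := by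
    rw [← convexHull_nonempty_iff (𝕜 := ℝ), ← hhull]
    exact hne
  obtain ⟨w, hwA, hw⟩ := hne2
  refine ⟨⟨w, hw⟩, ?_⟩
  let B : {B : Set F // IsExposed ℝ (convexHull ℝ (t : Set F)) B} := ⟨{w}, vertex_exposed t hw⟩
  have hBA : B ≤ Ψ A := by
    change ({w} : Set F) ⊆ _
    simpa using hwA
  have hBA' : Ψ.symm B ≤ A := by
    rw [← Ψ.le_iff_le, Ψ.apply_symm_apply]; exact hBA
  have hsub : ((Ψ.symm B : _) : Set E) ⊆ {(v : E)} := hBA'
  rcases Set.subset_singleton_iff_eq.mp hsub with h | h
  · exfalso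
    have h1 : Ψ.symm B = ⟨∅, isExposed_empty⟩ := Subtype.ext h
    have h2 : B = Ψ ⟨∅, isExposed_empty⟩ := by rw [← h1, Ψ.apply_symm_apply]
    rw [hΨbot] at h2
    have h3 := congrArg Subtype.val h2
    simp [B] at h3
  · have h1 : Ψ.symm B = A := Subtype.ext h
    rw [← h1, Ψ.apply_symm_apply]

lemma edge_image (s : Finset E) (t : Finset F)
    (Ψ : {A : Set E // IsExposed ℝ (convexHull ℝ (s : Set E)) A} ≃o
      {B : Set F // IsExposed ℝ (convexHull ℝ (t : Set F)) B})
    (e : (convexHull ℝ (s : Set E)).extremePoints ℝ ≃ (convexHull ℝ (t : Set F)).extremePoints ℝ)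
    (he : ∀ v : (convexHull ℝ (s : Set E)).extremePoints ℝ, ((Ψ ⟨{(v : E)}, vertex_exposed s v.2⟩ : _) : Set F) = {(e v : F)})
    (v w : (convexHull ℝ (s : Set E)).extremePoints ℝ)
    (h : (edgeGraph (convexHull ℝ (s : Set E))).Adj v w) :
    (edgeGraph (convexHull ℝ (t : Set F))).Adj (e v) (e w) := by
  refine ⟨fun h' => h.1 (e.injective h'), ?_⟩
  set A : {A : Set E // IsExposed ℝ (convexHull ℝ (s : Set E)) A} :=
    ⟨segment ℝ (v : E) (w : E), h.2⟩ with hA
  have hmem : ∀ u : (convexHull ℝ (s : Set E)).extremePoints ℝ,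
      (e u : F) ∈ ((Ψ A : _) : Set F) ↔ (u : E) ∈ segment ℝ (v : E) (w : E) := by
    intro u
    have h1 : (Ψ ⟨{(u : E)}, vertex_exposed s u.2⟩ ≤ Ψ A) ↔ (e u : F) ∈ ((Ψ A : _) : Set F) := by
      change ((Ψ ⟨{(u : E)}, vertex_exposed s u.2⟩ : _) : Set F) ⊆ _ ↔ _
      rw [he u, Set.singleton_subset_iff]
    rw [← h1, Ψ.le_iff_le]
    change ({(u : E)} : Set E) ⊆ _ ↔ _
    rw [Set.singleton_subset_iff]
  have hset : ((Ψ A : _) : Set F) ∩ (convexHull ℝ (t : Set F)).extremePoints ℝ =
      {(e v : F), (e w : F)} := by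
    ext x
    constructor
    · rintro ⟨hx1, hx2⟩
      obtain ⟨u, hu⟩ := e.surjective ⟨x, hx2⟩
      have hxu : (e u : F) = x := by rw [hu]
      rw [← hxu] at hx1 ⊢
      have := (hmem u).mp hx1
      rcases vertex_mem_segment u.2 (extremePoints_subset v.2) (extremePoints_subset w.2) this
        with h | h
      · left; rw [Subtype.ext h]
      · right; rw [Subtype.ext h]; rfl
    · rintro (rfl | rfl)
      · exact ⟨(hmem v).mpr (left_mem_segment ℝ _ _), (e v).2⟩
      · exact ⟨(hmem w).mpr (right_mem_segment ℝ _ _), (e w).2⟩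
  have hhull := face_eq t (Ψ A).2
  rw [hset, convexHull_pair] at hhull
  rw [← hhull]
  exact (Ψ A).2

/-- combinatorially equivalent polytopes have isomorphic edge-graphs -/
theorem edgeGraph_iso (s : Finset E) (t : Finset F)
    (h : CombEquiv (convexHull ℝ (s : Set E)) (convexHull ℝ (t : Set F))) :
    Nonempty (edgeGraph (convexHull ℝ (s : Set E)) ≃g edgeGraph (convexHull ℝ (t : Set F))) := by
  obtain ⟨Ψ⟩ := h
  choose f hf using vertex_image s t Ψ
  choose g hg using vertex_image t s Ψ.symm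
  have hgf : ∀ v, g (f v) = v := by
    intro v
    have h1 : (Ψ ⟨{(v : E)}, vertex_exposed s v.2⟩) =
        ⟨{(f v : F)}, vertex_exposed t (f v).2⟩ := Subtype.ext (hf v)
    have h2 := hg (f v)
    rw [← h1, Ψ.symm_apply_apply] at h2
    exact (Subtype.ext (Set.singleton_injective h2)).symm
  have hfg : ∀ w, f (g w) = w := by
    intro w
    have h1 : (Ψ.symm ⟨{(w : F)}, vertex_exposed t w.2⟩) =
        ⟨{(g w : E)}, vertex_exposed s (g w).2⟩ := Subtype.ext (hg w)
    have h2 := hf (g w)
    rw [← h1, Ψ.apply_symm_apply] at h2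
    exact (Subtype.ext (Set.singleton_injective h2)).symm
  let e : (convexHull ℝ (s : Set E)).extremePoints ℝ ≃ (convexHull ℝ (t : Set F)).extremePoints ℝ :=
    ⟨f, g, hgf, hfg⟩
  refine ⟨⟨e, ?_⟩⟩
  intro v w
  constructor
  · intro h
    have := edge_image t s Ψ.symm e.symm (fun w => hg w) (e v) (e w) h
    rwa [e.symm_apply_apply, e.symm_apply_apply] at this
  · exact edge_image s t Ψ e (fun v => hf v) v w

end comb

section gram

variable {F : Type*} [NormedAddCommGroup F] [InnerProductSpace ℝ F]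
  {ι : Type*} [Fintype ι]

lemma inner_sum_sum (p : ι → F) (a b : ι → ℝ) :
    ⟪∑ i, a i • p i, ∑ j, b j • p j⟫ = ∑ i, ∑ j, a i * b j * ⟪p i, p j⟫ := by
  rw [sum_inner]
  congr 1; funext i
  rw [inner_sum]
  congr 1; funext j
  rw [inner_smul_left, inner_smul_right]
  simp [mul_assoc]

/-- A permutation of a spanning family that preserves the Gram matrix is induced by a linear
isometry. -/
theorem exists_isometry [FiniteDimensional ℝ F] (p : ι → F) (hspan : Submodule.span ℝ (Set.range p) = ⊤) (π : ι ≃ ι)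
    (hπ : ∀ i j, ⟪p (π i), p (π j)⟫ = ⟪p i, p j⟫) :
    ∃ T : F ≃ₗᵢ[ℝ] F, ∀ i, T (p i) = p (π i) := by
  classical
  let lp : (ι → ℝ) →ₗ[ℝ] F := Fintype.linearCombination ℝ p
  let lq : (ι → ℝ) →ₗ[ℝ] F := Fintype.linearCombination ℝ (fun i => p (π i))
  have hlp : ∀ a, lp a = ∑ i, a i • p i := fun a => Fintype.linearCombination_apply ℝ _ _
  have hlq : ∀ a, lq a = ∑ i, a i • p (π i) := fun a => Fintype.linearCombination_apply ℝ _ _
  have hnorm : ∀ a, ‖lp a‖ = ‖lq a‖ := by
    intro a
    have : ‖lp a‖ ^ 2 = ‖lq a‖ ^ 2 := by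
      rw [← real_inner_self_eq_norm_sq, ← real_inner_self_eq_norm_sq, hlp, hlq, inner_sum_sum,
        inner_sum_sum (fun i => p (π i))]
      simp only [hπ]
    exact (sq_eq_sq₀ (norm_nonneg _) (norm_nonneg _)).mp this
  have hsurj : LinearMap.range lp = ⊤ := by
    rw [Fintype.range_linearCombination]; exact hspan
  obtain ⟨sec, hsec⟩ := lp.exists_rightInverse_of_surjective hsurj
  have hsec' : ∀ x, lp (sec x) = x := fun x => by
    have := congrArg (fun f : F →ₗ[ℝ] F => f x) hsec
    simpa using this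
  have hker : ∀ a, lp a = 0 → lq a = 0 := by
    intro a ha
    rw [← norm_eq_zero, ← hnorm, ha, norm_zero]
  let T0 : F →ₗᵢ[ℝ] F :=
    { toLinearMap := lq.comp sec
      norm_map' := fun x => by
        rw [LinearMap.comp_apply, ← hnorm, hsec'] }
  refine ⟨T0.toLinearIsometryEquiv rfl, fun i => ?_⟩
  change lq (sec (p i)) = p (π i)
  have h1 : lp (sec (p i) - Pi.single i 1) = 0 := by
    rw [map_sub, hsec', hlp]
    simp [Pi.single_apply, Finset.sum_ite_eq']
  have h2 := hker _ h1
  rw [map_sub, sub_eq_zero] at h2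
  rw [h2, hlq]
  simp [Pi.single_apply, Finset.sum_ite_eq']

end gram

end Pool.Agent.Lib_helper75.Spectral
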