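import Mathlib

/-!
Class-function computations in the symmetric group `S_5`.
-/

open Equiv

namespace Pool.Agent.Lib_helper75.Spectral

/-- the symmetric group `S_5` -/
abbrev G := Perm (Fin 5)

/-- number of fixed points -/
def fx (σ : G) : ℕ := (Finset.univ.filter (fun i => σ i = i)).card

/-- index of the conjugacy class: 0 identity, 1 transposition, 2 double transposition, 3 three-cycle,
4 type (3,2), 5 four-cycle, 6 five-cycle -/
def cl (σ : G) : ℕ :=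
  match fx σ, fx (σ * σ) with
  | 5, _ => 0
  | 3, _ => 1
  | 2, _ => 3
  | 1, 5 => 2
  | 1, _ => 5
  | 0, 2 => 4
  | _, _ => 6

/-- class representatives -/
def rep : ℕ → G
  | 0 => 1
  | 1 => swap 0 1
  | 2 => swap 0 1 * swap 2 3
  | 3 => swap 0 1 * swap 1 2
  | 4 => swap 0 1 * swap 1 2 * swap 3 4
  | 5 => swap 0 1 * swap 1 2 * swap 2 3
  | _ => swap 0 1 * swap 1 2 * swap 2 3 * swap 3 4

set_option maxRecDepth 100000 in
theorem cl_rep : ∀ i : Fin 7, cl (rep i) = i := by decide +kernel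

set_option maxRecDepth 100000 in
theorem exists_conj : ∀ π : G, ∃ g : G, π * g = g * rep (cl π) := by decide +kernel

theorem fx_conj (g σ : G) : fx (g * σ * g⁻¹) = fx σ := by
  unfold fx
  apply Finset.card_bij (fun i _ => g⁻¹ i)
  · intro i hi
    have hi' : g (σ (g⁻¹ i)) = i := by simpa using hi
    have : σ (g⁻¹ i) = g⁻¹ i := by
      rw [Perm.eq_inv_iff_eq]
      exact hi'
    simpa using this
  · intro i _ j _ h
    exact g⁻¹.injective h
  · intro j hj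
    have hj' : σ j = j := by simpa using hj
    refine ⟨g j, ?_, by simp⟩
    simp [hj']

theorem fx_inv (σ : G) : fx σ⁻¹ = fx σ := by
  unfold fx
  congr 1
  ext i
  simp only [Finset.mem_filter, Finset.mem_univ, true_and]
  rw [Perm.inv_eq_iff_eq]
  exact eq_comm

theorem cl_conj (g σ : G) : cl (g * σ * g⁻¹) = cl σ := by
  have h : g * σ * g⁻¹ * (g * σ * g⁻¹) = g * (σ * σ) * g⁻¹ := by group
  unfold cl
  rw [h, fx_conj, fx_conj]

theorem cl_inv (σ : G) : cl σ⁻¹ = cl σ := by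
  have h : σ⁻¹ * σ⁻¹ = (σ * σ)⁻¹ := by group
  unfold cl
  rw [h, fx_inv, fx_inv]

theorem cl_lt (σ : G) : cl σ < 7 := by
  unfold cl
  split <;> norm_num

/-- number of fixed points as a function of the class -/
def fxc : ℕ → ℕ
  | 0 => 5
  | 1 => 3
  | 2 => 1
  | 3 => 2
  | 4 => 0
  | 5 => 1
  | _ => 0

theorem fx_eq_of_conj (σ : G) (f : G → ℕ) (h1 : ∀ g σ, f (g * σ * g⁻¹) = f σ) :
    f σ = f (rep (cl σ)) := by
  obtain ⟨g, hg⟩ := exists_conj σ
  have : σ = g * rep (cl σ) * g⁻¹ := by rw [← hg]; group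
  conv_lhs => rw [this]
  exact h1 _ _

/-- convolution-type sums -/
def conv {M : Type*} [AddCommMonoid M] (W : ℕ → ℕ → M) (π : G) : M :=
  ∑ ρ : G, W (cl ρ) (cl (ρ⁻¹ * π))

theorem conv_conj {M : Type*} [AddCommMonoid M] (W : ℕ → ℕ → M) (g π : G) :
    conv W (g * π * g⁻¹) = conv W π := by
  unfold conv
  symm
  apply Fintype.sum_equiv (MulAut.conj g).toEquiv
  intro ρ
  have h1 : (MulAut.conj g).toEquiv ρ = g * ρ * g⁻¹ := rfl
  rw [h1, cl_conj]
  congr 1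
  have h2 : (g * ρ * g⁻¹)⁻¹ * (g * π * g⁻¹) = g * (ρ⁻¹ * π) * g⁻¹ := by group
  rw [h2, cl_conj]

theorem conv_eq_rep {M : Type*} [AddCommMonoid M] (W : ℕ → ℕ → M) (π : G) :
    conv W π = conv W (rep (cl π)) := by
  obtain ⟨g, hg⟩ := exists_conj π
  have : π = g * rep (cl π) * g⁻¹ := by rw [← hg]; group
  conv_lhs => rw [this]
  exact conv_conj W _ _

/-- single cycles -/
def sc : ℕ → ℤ
  | 1 => 1
  | 3 => 1
  | 5 => 1
  | 6 => 1
  | _ => 0

/-- transpositions -/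
def tr : ℕ → ℤ
  | 1 => 1
  | _ => 0

/-- the five idempotent class functions (times 120) -/
def X4 : ℕ → ℤ
  | 0 => 53
  | 1 => 7
  | 2 => -11
  | 3 => 5
  | 4 => -5
  | 5 => -1
  | _ => 3

def X8 : ℕ → ℤ
  | 0 => 25
  | 1 => 5
  | 2 => 5
  | 3 => -5
  | 4 => 5
  | 5 => -5
  | _ => 0

def X0 : ℕ → ℤ
  | 0 => 25
  | 1 => -5
  | 2 => 5
  | 3 => -5
  | 4 => -5
  | 5 => 5
  | _ => 0

def X6 : ℕ → ℤ
  | 0 => 16
  | 1 => -8
  | 2 => 0
  | 3 => 4
  | 4 => 4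
  | 5 => 0
  | _ => -4

/-- the packed table -/
def WW (a b : ℕ) : (ℤ × ℤ × ℤ × ℤ × ℤ) × (ℤ × ℤ) :=
  ((sc a, sc a * X4 b, sc a * X8 b, sc a * X0 b, sc a * X6 b), (sc a * sc b, tr a * tr b))

/-- number of common neighbours -/
def nn : ℕ → ℤ
  | 0 => 84
  | 1 => 60
  | 2 => 60
  | 3 => 58
  | 4 => 62
  | 5 => 56
  | _ => 58

/-- number of common transposition-neighbours -/
def mm : ℕ → ℤ
  | 0 => 10
  | 1 => 0
  | 2 => 2
  | 3 => 3
  | 4 => 0
  | 5 => 0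
  | _ => 0

set_option maxRecDepth 100000 in
theorem conv_WW_rep : ∀ k : Fin 7, conv WW (rep k) =
    ((84, 4 * X4 k, (-8) * X8 k, 0 * X0 k, (-6) * X6 k), (nn k, mm k)) := by decide +kernel

theorem conv_WW (π : G) : conv WW π =
    ((84, 4 * X4 (cl π), (-8) * X8 (cl π), 0 * X0 (cl π), (-6) * X6 (cl π)),
      (nn (cl π), mm (cl π))) := by
  rw [conv_eq_rep]
  exact conv_WW_rep ⟨cl π, cl_lt π⟩

theorem sum_sc (π : G) : ∑ ρ : G, sc (cl ρ) = 84 := by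
  have h := congrArg (fun x => x.1.1) (conv_WW π)
  simp only [conv, Prod.fst_sum, WW] at h
  exact h

theorem sum_X4 (π : G) : ∑ ρ : G, sc (cl ρ) * X4 (cl (ρ⁻¹ * π)) = 4 * X4 (cl π) := by
  have h := congrArg (fun x => x.1.2.1) (conv_WW π)
  simp only [conv, Prod.fst_sum, Prod.snd_sum, WW] at h
  exact h

theorem sum_X8 (π : G) : ∑ ρ : G, sc (cl ρ) * X8 (cl (ρ⁻¹ * π)) = (-8) * X8 (cl π) := by
  have h := congrArg (fun x => x.1.2.2.1) (conv_WW π)
  simp only [conv, Prod.fst_sum, Prod.snd_sum, WW] at h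
  exact h

theorem sum_X0 (π : G) : ∑ ρ : G, sc (cl ρ) * X0 (cl (ρ⁻¹ * π)) = 0 * X0 (cl π) := by
  have h := congrArg (fun x => x.1.2.2.2.1) (conv_WW π)
  simp only [conv, Prod.fst_sum, Prod.snd_sum, WW] at h
  exact h

theorem sum_X6 (π : G) : ∑ ρ : G, sc (cl ρ) * X6 (cl (ρ⁻¹ * π)) = (-6) * X6 (cl π) := by
  have h := congrArg (fun x => x.1.2.2.2.2) (conv_WW π)
  simp only [conv, Prod.fst_sum, Prod.snd_sum, WW] at h
  exact h

theorem sum_nn (π : G) : ∑ ρ : G, sc (cl ρ) * sc (cl (ρ⁻¹ * π)) = nn (cl π) := by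
  have h := congrArg (fun x => x.2.1) (conv_WW π)
  simp only [conv, Prod.fst_sum, Prod.snd_sum, WW] at h
  exact h

theorem sum_mm (π : G) : ∑ ρ : G, tr (cl ρ) * tr (cl (ρ⁻¹ * π)) = mm (cl π) := by
  have h := congrArg (fun x => x.2.2) (conv_WW π)
  simp only [conv, Prod.snd_sum, WW] at h
  exact h

set_option maxRecDepth 100000 in
theorem cl_eq_zero_iff : ∀ π : G, cl π = 0 ↔ π = 1 := by decide +kernel

theorem sum_idem_aux : ∀ k : Fin 7, 1 + X4 k + X8 k + X0 k + X6 k = if (k : ℕ) = 0 then 120 else 0 := by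
  decide

theorem sum_idem (π : G) :
    1 + X4 (cl π) + X8 (cl π) + X0 (cl π) + X6 (cl π) = if π = 1 then 120 else 0 := by
  have h := sum_idem_aux ⟨cl π, cl_lt π⟩
  simp only [cl_eq_zero_iff] at h
  exact h

theorem fxc_rep : ∀ k : Fin 7, fx (rep k) = fxc k := by decide +kernel

theorem fx_eq (π : G) : fx π = fxc (cl π) := by
  rw [fx_eq_of_conj π fx fx_conj]
  exact fxc_rep ⟨cl π, cl_lt π⟩

set_option maxRecDepth 100000 in
theorem edge_rep : ∀ k : Fin 7, sc k = 1 → ∀ ρ : G, ρ = 1 ∨ ρ = rep k ∨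
    fx ρ + fx (ρ⁻¹ * rep k) < 5 + fx (rep k) := by decide +kernel

/-- For a single cycle `π`, the sum `fx ρ + fx (ρ⁻¹ π)` is maximal exactly at `ρ = 1, π`. -/
theorem edge_ineq (π : G) (hπ : sc (cl π) = 1) (ρ : G) (h1 : ρ ≠ 1) (h2 : ρ ≠ π) :
    fx ρ + fx (ρ⁻¹ * π) < 5 + fx π := by
  obtain ⟨g, hg⟩ := exists_conj π
  have hπg : π = g * rep (cl π) * g⁻¹ := by rw [← hg]; group
  have hρ : ρ = g * (g⁻¹ * ρ * g) * g⁻¹ := by group
  have key := edge_rep ⟨cl π, cl_lt π⟩ hπ (g⁻¹ * ρ * g)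
  simp only at key
  rcases key with h | h | h
  · exfalso; apply h1
    rw [hρ, h]; group
  · exfalso; apply h2
    rw [hρ, h, ← hπg]
  · have e1 : fx ρ = fx (g⁻¹ * ρ * g) := by
      conv_lhs => rw [hρ]
      rw [fx_conj]
    have e2 : fx (ρ⁻¹ * π) = fx ((g⁻¹ * ρ * g)⁻¹ * rep (cl π)) := by
      have : ρ⁻¹ * π = g * ((g⁻¹ * ρ * g)⁻¹ * rep (cl π)) * g⁻¹ := by
        conv_lhs => rw [hπg]
        group
      rw [this, fx_conj]
    have e3 : fx π = fx (rep (cl π)) := by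
      conv_lhs => rw [hπg]
      rw [fx_conj]
    rw [e1, e2, e3]
    exact h

set_option maxRecDepth 100000 in
/-- A nontrivial `π` that is not a single cycle splits. -/
theorem nonedge_split : ∀ π : G, sc (cl π) = 0 → π ≠ 1 → ∃ c : G, c ≠ 1 ∧ c ≠ π ∧
    ∀ i, (c i = i ∧ (c⁻¹ * π) i = π i) ∨ (c i = π i ∧ (c⁻¹ * π) i = i) := by
  decide +kernel

theorem sc_zero_or_one (n : ℕ) : sc n = 0 ∨ sc n = 1 := by
  unfold sc; split <;> simp

theorem bound_aux : ∀ k : Fin 7, (k : ℕ) ≠ 0 → X4 k ≤ 7 ∧ X8 k ≤ 5 ∧ X0 k ≤ 5 ∧ X6 k ≤ 4 := by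
  decide

theorem bound (π : G) (h : π ≠ 1) :
    X4 (cl π) ≤ 7 ∧ X8 (cl π) ≤ 5 ∧ X0 (cl π) ≤ 5 ∧ X6 (cl π) ≤ 4 :=
  bound_aux ⟨cl π, cl_lt π⟩ (fun h0 => h ((cl_eq_zero_iff π).mp h0))

theorem tr_iff_aux : ∀ a b : Fin 7, sc a = sc b → nn a = nn b → tr a = tr b := by decide

theorem fx_iff_aux : ∀ a b : Fin 7, ((a : ℕ) = 0 ↔ (b : ℕ) = 0) → sc a = sc b → nn a = nn b →
    mm a = mm b → fxc a = fxc b := by decide

/-- matrix entries of permutation matrices -/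
def ent (σ : G) (i j : Fin 5) : ℤ := if σ j = i then 1 else 0

set_option maxRecDepth 100000 in
theorem sum_transp : ∀ i j : Fin 5, ∑ t : G, tr (cl t) * ent t i j = 1 + 5 * ent 1 i j := by
  decide +kernel

set_option maxRecDepth 100000 in
theorem double_diff : ∀ (τ : G) (i j : Fin 5),
    ent τ i j - ent (swap 0 1 * τ) i j - ent (τ * swap 0 1) i j + ent (swap 0 1 * τ * swap 0 1) i j
      = ((fx τ : ℤ) - fx (τ⁻¹ * swap 0 1)) * (ent 1 i j - ent (swap 0 1) i j) := by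
  decide +kernel

end Pool.Agent.Lib_helper75.Spectral
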