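import Pool.Agent.Lib_helper75.Spectral.General
import Pool.Agent.Lib_helper75.Spectral.S5

/-!
The graph on `S_5` with `σ ~ τ` iff `σ⁻¹ τ` is a single nontrivial cycle is not the edge-graph of a
spectral polytope.
-/

open scoped RealInnerProductSpace

namespace Pool.Agent.Lib_helper75.Spectral

theorem sc_one : sc (cl (1 : G)) = 0 := by decide +kernel

/-- the graph -/
def G0 : SimpleGraph G where
  Adj σ τ := sc (cl (σ⁻¹ * τ)) = 1
  symm := ⟨fun σ τ h => by
    have : τ⁻¹ * σ = (σ⁻¹ * τ)⁻¹ := by group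
    rw [this, cl_inv]; exact h⟩
  loopless := ⟨fun σ h => by
    rw [inv_mul_cancel, sc_one] at h
    exact absurd h (by norm_num)⟩

lemma G0_adj (σ τ : G) : G0.Adj σ τ ↔ sc (cl (σ⁻¹ * τ)) = 1 := Iff.rfl

/-- the five eigenvalue class functions -/
def XX : Fin 5 → ℕ → ℤ
  | 0 => fun _ => 1
  | 1 => X4
  | 2 => X8
  | 3 => X0
  | 4 => X6

/-- the five eigenvalues -/
def tt : Fin 5 → ℤ
  | 0 => 84
  | 1 => 4
  | 2 => -8
  | 3 => 0
  | 4 => -6

theorem sum_XX (t : Fin 5) (π : G) :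
    ∑ ρ : G, sc (cl ρ) * XX t (cl (ρ⁻¹ * π)) = tt t * XX t (cl π) := by
  fin_cases t
  · simpa [XX, tt] using sum_sc π
  · exact sum_X4 π
  · exact sum_X8 π
  · exact sum_X0 π
  · exact sum_X6 π

theorem sum_XX_idem (π : G) : ∑ t : Fin 5, XX t (cl π) = if π = 1 then 120 else 0 := by
  rw [← sum_idem π]
  simp [Fin.sum_univ_succ, XX]
  ring

/-- upper bounds off the identity -/
def MM : Fin 5 → ℤ
  | 0 => 1
  | 1 => 7
  | 2 => 5
  | 3 => 5
  | 4 => 4

theorem XX_bound (t : Fin 5) (π : G) (h : π ≠ 1) : XX t (cl π) ≤ MM t := by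
  obtain ⟨h1, h2, h3, h4⟩ := bound π h
  fin_cases t
  · exact le_refl _
  · exact h1
  · exact h2
  · exact h3
  · exact h4

theorem MM_lt : ∀ t : Fin 5, t ≠ 0 → 2 * MM t < XX t 0 + XX t 2 := by decide

/-- the double transposition `(0 1)(2 3)` -/
def g0 : G := rep 2

theorem cl_g0 : cl g0 = 2 := cl_rep 2
theorem g0_ne_one : g0 ≠ 1 := by
  intro h
  have := (cl_eq_zero_iff g0).mpr h
  rw [cl_g0] at this
  exact absurd this (by norm_num)
theorem cl_one' : cl (1 : G) = 0 := (cl_eq_zero_iff 1).mpr rfl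

/-- the operator on functions on `S_5` -/
def B (f : G → ℝ) (σ : G) : ℝ := ∑ τ : G, (sc (cl (σ⁻¹ * τ)) : ℝ) * f τ

/-- translated class function -/
def XR (t : Fin 5) (a τ : G) : ℝ := (XX t (cl (a⁻¹ * τ)) : ℝ)

theorem B_XR (t : Fin 5) (a σ : G) : B (XR t a) σ = (tt t : ℝ) * XR t a σ := by
  unfold B XR
  have h := sum_XX t (σ⁻¹ * a)
  have h1 : ∑ τ : G, (sc (cl (σ⁻¹ * τ)) : ℝ) * (XX t (cl (a⁻¹ * τ)) : ℝ) =
      ((∑ ρ : G, sc (cl ρ) * XX t (cl (ρ⁻¹ * (σ⁻¹ * a))) : ℤ) : ℝ) := by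
    push_cast
    symm
    apply Fintype.sum_equiv (Equiv.mulLeft σ)
    intro ρ
    have e1 : σ⁻¹ * (Equiv.mulLeft σ ρ) = ρ := by simp
    have e2 : a⁻¹ * (Equiv.mulLeft σ ρ) = (ρ⁻¹ * (σ⁻¹ * a))⁻¹ := by
      rw [Equiv.coe_mulLeft]; group
    rw [e1, e2, cl_inv]
  rw [h1, h]
  have e3 : a⁻¹ * σ = (σ⁻¹ * a)⁻¹ := by group
  rw [e3, cl_inv]
  push_cast
  ring

theorem B_symm (f g : G → ℝ) : ∑ σ, B f σ * g σ = ∑ σ, f σ * B g σ := by
  unfold B
  simp only [Finset.sum_mul, Finset.mul_sum]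
  rw [Finset.sum_comm]
  congr 1; funext σ
  congr 1; funext τ
  have : τ⁻¹ * σ = (σ⁻¹ * τ)⁻¹ := by group
  rw [this, cl_inv]
  ring

/-- every eigenvalue of `B` is one of the five -/
theorem eigenvalue_mem (θ : ℝ) (h : G → ℝ) (hne : h ≠ 0) (hB : ∀ σ, B h σ = θ * h σ) :
    ∃ t : Fin 5, θ = (tt t : ℝ) := by
  by_contra hcon
  push Not at hcon
  apply hne
  funext a
  have horth : ∀ t, ∑ τ, h τ * XR t a τ = 0 := by
    intro t
    have h1 := B_symm h (XR t a)
    have h2 : ∑ σ, B h σ * XR t a σ = θ * ∑ σ, h σ * XR t a σ := by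
      rw [Finset.mul_sum]; congr 1; funext σ; rw [hB]; ring
    have h3 : ∑ σ, h σ * B (XR t a) σ = (tt t : ℝ) * ∑ σ, h σ * XR t a σ := by
      rw [Finset.mul_sum]; congr 1; funext σ; rw [B_XR]; ring
    rw [h2, h3] at h1
    have h4 : (θ - (tt t : ℝ)) * ∑ σ, h σ * XR t a σ = 0 := by rw [sub_mul, h1, sub_self]
    rcases mul_eq_zero.mp h4 with h5 | h5
    · exact absurd (sub_eq_zero.mp h5) (hcon t)
    · exact h5
  have hsum : ∑ t : Fin 5, ∑ τ, h τ * XR t a τ = 120 * h a := by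
    rw [Finset.sum_comm]
    have : ∀ τ, ∑ t : Fin 5, h τ * XR t a τ = if τ = a then 120 * h a else 0 := by
      intro τ
      rw [← Finset.mul_sum]
      have h6 : ∑ t : Fin 5, XR t a τ = ((∑ t : Fin 5, XX t (cl (a⁻¹ * τ)) : ℤ) : ℝ) := by
        unfold XR; push_cast; rfl
      rw [h6, sum_XX_idem]
      by_cases hτ : τ = a
      · subst hτ; simp; ring
      · have : a⁻¹ * τ ≠ 1 := by
          intro h7
          apply hτ
          exact (inv_mul_eq_one.mp h7).symm
        simp [hτ, this]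
    rw [Finset.sum_congr rfl (fun τ _ => this τ)]
    simp
  rw [Finset.sum_eq_zero (fun t _ => horth t)] at hsum
  have : h a = 0 := by linarith
  simpa using this

/-- the exposing function -/
def FF (t : Fin 5) (τ : G) : ℝ := XR t 1 τ + XR t g0 τ

theorem B_FF (t : Fin 5) (σ : G) : B (FF t) σ = (tt t : ℝ) * FF t σ := by
  have : B (FF t) σ = B (XR t 1) σ + B (XR t g0) σ := by
    unfold B FF
    rw [← Finset.sum_add_distrib]
    congr 1; funext τ; ring
  rw [this, B_XR, B_XR, FF]; ring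

theorem FF_one (t : Fin 5) : FF t 1 = (XX t 0 + XX t 2 : ℤ) := by
  unfold FF XR
  have e1 : (1 : G)⁻¹ * 1 = 1 := by group
  have e2 : g0⁻¹ * 1 = g0⁻¹ := by group
  rw [e1, e2, cl_inv, cl_one', cl_g0]; push_cast; ring

theorem FF_g0 (t : Fin 5) : FF t g0 = (XX t 0 + XX t 2 : ℤ) := by
  unfold FF XR
  have e1 : (1 : G)⁻¹ * g0 = g0 := by group
  have e2 : g0⁻¹ * g0 = 1 := by group
  rw [e1, e2, cl_one', cl_g0]; push_cast; ring

theorem FF_lt (t : Fin 5) (ht : t ≠ 0) (τ : G) (h1 : τ ≠ 1) (h2 : τ ≠ g0) : FF t τ < FF t 1 := by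
  rw [FF_one]
  unfold FF XR
  have e1 : XX t (cl ((1 : G)⁻¹ * τ)) ≤ MM t := by
    apply XX_bound
    intro h; apply h1
    simpa using h
  have e2 : XX t (cl (g0⁻¹ * τ)) ≤ MM t := by
    apply XX_bound
    intro h; apply h2
    exact (inv_mul_eq_one.mp h).symm
  have e3 := MM_lt t ht
  have e4 : XX t (cl ((1 : G)⁻¹ * τ)) + XX t (cl (g0⁻¹ * τ)) < XX t 0 + XX t 2 := by linarith
  exact_mod_cast e4

/-- No spectral polytope has the edge-graph `G0`. -/
theorem not_spectral {E : Type*} [NormedAddCommGroup E] [NormedSpace ℝ E] [FiniteDimensional ℝ E]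
    (Q : Set E) (hQ : IsPolytope Q) (ψ : edgeGraph Q ≃g G0) : ¬ IsSpectral Q := by
  classical
  rintro ⟨n, e, lab, θ, Φ, L, hEig, -, hspan, hL, -⟩
  set A := ((edgeGraph Q).comap lab).adjMatrix ℝ with hA
  let κ : Fin n ≃ G := lab.trans ψ.toEquiv
  have hκ : ∀ i, ψ (lab i) = κ i := fun i => rfl
  have hκs : ∀ τ : G, lab (κ.symm τ) = ψ.symm τ := by
    intro τ
    apply ψ.injective
    rw [hκ, Equiv.apply_symm_apply]
    exact (ψ.apply_symm_apply τ).symm
  have hAij : ∀ i j, A i j = (sc (cl ((κ i)⁻¹ * κ j)) : ℝ) := by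
    intro i j
    rw [hA, SimpleGraph.adjMatrix_apply]
    have h1 : ((edgeGraph Q).comap lab).Adj i j ↔ sc (cl ((κ i)⁻¹ * κ j)) = 1 := by
      rw [SimpleGraph.comap_adj, ← ψ.map_adj_iff, G0_adj, hκ, hκ]
    by_cases h : ((edgeGraph Q).comap lab).Adj i j
    · rw [if_pos h, h1.mp h]; simp
    · rw [if_neg h]
      rcases sc_zero_or_one (cl ((κ i)⁻¹ * κ j)) with h2 | h2
      · rw [h2]; simp
      · exact absurd (h1.mpr h2) h
  have hmul : ∀ (f : G → ℝ) (i : Fin n),
      Matrix.toLin' A (fun j => f (κ j)) i = B f (κ i) := by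
    intro f i
    rw [Matrix.toLin'_apply, Matrix.mulVec, dotProduct]
    unfold B
    rw [← Fintype.sum_equiv κ (fun j => A i j * f (κ j))
      (fun τ => (sc (cl ((κ i)⁻¹ * τ)) : ℝ) * f τ)]
    intro j
    rw [hAij]
  -- the eigenvalue
  obtain ⟨h, hh⟩ := hEig.exists_hasEigenvector
  let h' : G → ℝ := fun τ => h (κ.symm τ)
  have hh' : h = fun j => h' (κ j) := by funext j; simp [h']
  have hB : ∀ σ, B h' σ = θ * h' σ := by
    intro σ
    have h1 := hh.apply_eq_smul
    have h2 := congrFun h1 (κ.symm σ)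
    conv_lhs at h2 => rw [hh', hmul h', Equiv.apply_symm_apply]
    rw [h2]; rfl
  have hne : h' ≠ 0 := by
    intro h0
    apply hh.2
    rw [hh', h0]; rfl
  obtain ⟨t, ht⟩ := eigenvalue_mem θ h' hne hB
  -- eigenfunctions are linear functionals of the vertices
  have hrep : ∀ f : G → ℝ, (∀ σ, B f σ = θ * f σ) →
      ∃ c : Fin e → ℝ, ∀ i, f (κ i) = ∑ k, c k * L (lab i : E) k := by
    intro f hf
    have hmem : (fun j => f (κ j)) ∈ Module.End.eigenspace (Matrix.toLin' A) θ := by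
      rw [Module.End.mem_eigenspace_iff]
      funext i
      rw [hmul, hf]; rfl
    rw [← hspan, Submodule.mem_span_range_iff_exists_fun] at hmem
    obtain ⟨c, hc⟩ := hmem
    refine ⟨c, fun i => ?_⟩
    have h1 := congrFun hc i
    rw [← h1, Finset.sum_apply]
    congr 1; funext k
    rw [hL i]; rfl
  by_cases ht0 : t = 0
  · -- the Perron eigenvalue: contradiction with the barycentre
    subst ht0
    have h84 : θ = 84 := by rw [ht]; simp [tt]
    obtain ⟨c, hc⟩ := hrep (fun _ => 1) (by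
      intro σ
      have := B_XR 0 1 σ
      have hX : XR 0 1 = fun _ => (1 : ℝ) := by funext τ; simp [XR, XX]
      rw [hX] at this
      rw [this, ht])
    have hbar : ∑ i, (lab i : E) = 0 := by
      have h1 := hQ.barycentre
      rw [← finsum_set_coe_eq_finsum_mem, ← finsum_comp_equiv lab, finsum_eq_sum_of_fintype] at h1
      exact h1
    have h2 : ∑ i : Fin n, (1 : ℝ) = 0 := by
      calc ∑ i : Fin n, (1 : ℝ) = ∑ i, ∑ k, c k * L (lab i : E) k :=
            Finset.sum_congr rfl fun i _ => hc i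
        _ = ∑ k, c k * L (∑ i, (lab i : E)) k := by
            rw [Finset.sum_comm]
            congr 1; funext k
            rw [map_sum, Finset.sum_apply, Finset.mul_sum]
        _ = 0 := by rw [hbar]; simp
    have hn : Nonempty (Fin n) := ⟨κ.symm 1⟩
    simp only [Finset.sum_const, Finset.card_univ, Fintype.card_fin, nsmul_eq_mul, mul_one] at h2
    have : n = 0 := by exact_mod_cast h2
    subst this
    exact hn.elim (fun i => i.elim0)
  · -- other eigenvalues: the segment between `1` and `g0` would be an edge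
    obtain ⟨c, hc⟩ := hrep (FF t) (by intro σ; rw [B_FF, ht])
    let l0 : E →ₗ[ℝ] ℝ :=
      { toFun := fun x => ∑ k, c k * L x k
        map_add' := by
          intro x y
          rw [← Finset.sum_add_distrib]
          congr 1; funext k
          rw [map_add, Pi.add_apply]; ring
        map_smul' := by
          intro r x
          rw [RingHom.id_apply, smul_eq_mul, Finset.mul_sum]
          congr 1; funext k
          rw [map_smul, Pi.smul_apply, smul_eq_mul]; ring }
    let l : E →L[ℝ] ℝ := LinearMap.toContinuousLinearMap l0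
    let q : G → E := fun τ => (ψ.symm τ : E)
    have hlq : ∀ τ, l (q τ) = FF t τ := by
      intro τ
      have h1 := hc (κ.symm τ)
      rw [Equiv.apply_symm_apply] at h1
      rw [h1]
      change ∑ k, c k * L (ψ.symm τ : E) k = _
      rw [hκs]
    obtain ⟨s, hs⟩ := hQ.hull
    have hQq : Q = convexHull ℝ (Set.range q) := by
      have h1 := face_eq s (IsExposed.refl (convexHull ℝ (s : Set E)))
      rw [← hs] at h1
      have h2 : Q ∩ Q.extremePoints ℝ = Set.range q := by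
        ext x
        constructor
        · rintro ⟨-, hx⟩
          refine ⟨ψ ⟨x, hx⟩, ?_⟩
          change ((ψ.symm (ψ ⟨x, hx⟩) : Q.extremePoints ℝ) : E) = x
          rw [ψ.symm_apply_apply]
        · rintro ⟨τ, rfl⟩
          exact ⟨extremePoints_subset (ψ.symm τ).2, (ψ.symm τ).2⟩
      rw [h2] at h1
      exact h1
    have hexp : IsExposed ℝ Q (segment ℝ (q 1) (q g0)) := by
      rw [hQq]
      apply exposed_pair q l 1 g0
      · rw [hlq, hlq, FF_one, FF_g0]
      · intro τ h1 h2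
        rw [hlq, hlq]
        exact FF_lt t ht0 τ h1 h2
    have hadj : (edgeGraph Q).Adj (ψ.symm 1) (ψ.symm g0) := by
      refine ⟨?_, hexp⟩
      intro h
      exact g0_ne_one (ψ.symm.injective h).symm
    rw [ψ.symm.map_adj_iff, G0_adj] at hadj
    have e1 : (1 : G)⁻¹ * g0 = g0 := by group
    rw [e1, cl_g0] at hadj
    exact absurd hadj (by decide)

end Pool.Agent.Lib_helper75.Spectral
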